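import Pool.Agent.Crg.Class

/-!
# Bounded-order colored regularity graphs for the edit distance, `p` near the middle

`Pool.Agent.Crg.ed H p` is the edit distance function `inf {g_K(p) : K ∈ 𝒦(H)}` and
`Pool.Agent.Crg.edN H N p` the same infimum over the `K ∈ 𝒦(H)` of order at most `N`
(definitions in `Pool/Agent/Crg/Defs.lean`).
-/

set_option autoImplicit false

namespace Pool.Agent.Results.MP_076b30_co.BoundedOrder

open Pool.Agent.Crg

/-- (1) For every finite vertex set `W` and every `α > 1/4` there is one `N` such that for all graphs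
`H` on `W` and all `p ∈ [α, 1-α]` the CRGs of order at most `N` give the edit distance function.
(2) If the edit distance function of `H` has a maximiser in the open interval `(1/4, 3/4)`, then
the equality of the problem holds for `H`. (3) An explicit class of graphs satisfying the
equality. -/
theorem result (W : Type) [Fintype W] :
    (∀ α : ℝ, 1 / 4 < α → ∃ N : ℕ, ∀ (H : SimpleGraph W) (p : ℝ), α ≤ p → p ≤ 1 - α →
      edN H N p = ed H p) ∧
    (∀ (H : SimpleGraph W) (p : ℝ), 1 / 4 < p → p < 3 / 4 →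
      (∀ q ∈ Set.Icc (0 : ℝ) 1, ed H q ≤ ed H p) →
      ∃ N : ℕ, sSup (edN H N '' Set.Icc 0 1) = sSup (ed H '' Set.Icc 0 1)) ∧
    (2 ≤ Fintype.card W → ∀ (H : SimpleGraph W) (r a b : ℕ),
      (∀ i j, i + j = r + 1 → SplitColorable H i j) → ¬ H.Colorable a → ¬ Hᶜ.Colorable b →
      r ≤ 2 * a → r ≤ 2 * b →
      ∃ N : ℕ, sSup (edN H N '' Set.Icc 0 1) = sSup (ed H '' Set.Icc 0 1)) :=
  ⟨fun α hα => edN_eq W α hα, fun H _ h1 h2 hmax => sup_eq H h1 h2 hmax,
    fun hW H _ _ _ hr ha hb hra hrb => sup_eq_class hW H hr ha hb hra hrb⟩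

end Pool.Agent.Results.MP_076b30_co.BoundedOrder
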