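import Pool.Agent.CrgTail.Main

/-!
# A graph whose edit distance function is not given by colored regularity graphs of bounded order

`Pool.Agent.Crg.ed H p` is the edit distance function `inf {g_K(p) : K ∈ 𝒦(H)}` and
`Pool.Agent.Crg.edN H N p` the same infimum over the `K ∈ 𝒦(H)` of order at most `N`
(definitions in `Pool/Agent/Crg/Defs.lean`).
-/

set_option autoImplicit false

namespace Pool.Agent.Results.MP_076b30_co.PointwiseFails

open Pool.Agent.Crg

/-- There is a graph `H` with 71 vertices such that the edit distance function is `p / 12` on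
`[0, √5 - 2]` and less than `p / 12` on `(√5 - 2, 1/2]`, while for every `N ≥ 12` the minimum of
`g_K(p)` over the `K ∈ 𝒦(H)` of order at most `N` is still `p / 12` on an interval
`[0, √5 - 2 + ε]`, `ε > 0`. -/
theorem result : ∃ H : SimpleGraph (Fin 71),
    (∀ p : ℝ, 0 ≤ p → p ≤ √5 - 2 → ed H p = p / 12) ∧
    (∀ p : ℝ, √5 - 2 < p → p ≤ 1 / 2 → ed H p < p / 12) ∧
    ∀ N : ℕ, 12 ≤ N → ∃ ε > 0, ∀ p : ℝ, 0 ≤ p → p ≤ √5 - 2 + ε → edN H N p = p / 12 := by
  refine ⟨Pool.Agent.CrgTail.H71, ?_⟩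
  simp only [Pool.Agent.CrgTail.ed_H71, Pool.Agent.CrgTail.edN_H71]
  exact Pool.Agent.CrgTail.main

end Pool.Agent.Results.MP_076b30_co.PointwiseFails
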